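import Pool.Agent.Helper36.LX.Sheet
import Pool.Agent.Helper80.LG.EXCMP

/-! Row CMP of the sheet LX: a shortest network with nodes in the hull exists. -/

set_option autoImplicit false

open MeasureTheory Metric Set Filter Topology
open scoped ENNReal NNReal

namespace H11ST
namespace LX
open LG

theorem cmp : LX_CMP := by
  intro d n p i0 hn
  have hK : IsCompact (Hu p) := (Set.finite_range p).isCompact_convexHull (𝕜 := ℝ)
  have hK0 : (Hu p).Nonempty := ⟨p i0, subset_convexHull ℝ _ (mem_range_self i0)⟩
  obtain ⟨t, hv, hm, hle⟩ := ex_cmp d n p i0 hn (Hu p) hK hK0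
  exact ⟨t, hv, hm, fun t' hv' hm' => hle t' hv' hm'⟩

end LX
end H11ST
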